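import Pool.Agent.K1H53.BI.Plan2
import Pool.Agent.K1H10.BI.GZ

set_option autoImplicit false

/-! Project BI, piece MARK: the frozen particles do not fill the ball. -/

open scoped ENNReal
open Finset

namespace Pool.Agent.K1H45.BI

open Pool.Agent.K1H53.BI

/-- the value of a particle -/
noncomputable def hh (h : V → ℝ) (x : V) : ℝ≥0∞ := ENNReal.ofReal (h x)

/-- the value of a state -/
noncomputable def WW (h : V → ℝ) (A0 : Finset V) (s : St) : ℝ≥0∞ :=
  ∑ z ∈ s.A \ A0, hh h z + (s.L.map (hh h)).sum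

/-- the states above `A0` without launches to come -/
def KK (A0 : Finset V) (s : St) : Prop := A0 ⊆ s.A ∧ s.m = 0

variable {h : V → ℝ} {A0 : Finset V}

theorem WW_put {s : St} (hs : KK A0 s) (y : V) : WW h A0 (put s y) = WW h A0 s + hh h y := by
  unfold put WW
  by_cases hy : y ∈ s.A
  · rw [if_pos hy]
    simp only [List.map_cons, List.sum_cons]
    ring
  · rw [if_neg hy]
    have h0 : y ∉ A0 := fun h' => hy (hs.1 h')
    have h1 : insert y s.A \ A0 = insert y (s.A \ A0) := insert_sdiff_of_notMem _ h0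
    simp only [h1]
    rw [sum_insert (fun h' => hy (mem_sdiff.1 h').1)]
    ring

theorem KK_put {s : St} (hs : KK A0 s) (y : V) : KK A0 (put s y) := by
  unfold put
  split_ifs with hy
  · exact hs
  · exact ⟨hs.1.trans (subset_insert _ _), hs.2⟩

theorem KK_children (x : V) (k : ℕ) : ∀ s s' : St, KK A0 s → children x k s s' ≠ 0 →
    KK A0 s' := by
  induction k with
  | zero =>
    intro s s' hs h'
    have h1 : s' ∈ (children x 0 s).support := (PMF.mem_support_iff _ _).2 h'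
    unfold children at h1
    rw [(PMF.mem_support_pure_iff _ _).1 h1]
    exact hs
  | succ k ih =>
    intro s s' hs h'
    have h1 : s' ∈ (children x (k + 1) s).support := (PMF.mem_support_iff _ _).2 h'
    unfold children at h1
    obtain ⟨e, _, he⟩ := (PMF.mem_support_bind_iff _ _ _).1 h1
    exact ih _ _ (KK_put hs _) ((PMF.mem_support_iff _ _).1 he)

theorem avg (h0 : ∀ x, 0 ≤ h x) (hs : ∀ x, ∑ e : Fin 3 × Bool, h (x + dir e) ≤ 6 * h x) (x : V) :
    Ex (PMF.uniformOfFintype (Fin 3 × Bool)) (fun e => hh h (x + dir e)) ≤ hh h x := by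
  rw [Pool.Agent.K1H10.BI.Ex_unif]
  have h1 : ∑ e : Fin 3 × Bool, hh h (x + dir e) = ENNReal.ofReal (∑ e : Fin 3 × Bool,
      h (x + dir e)) := (ENNReal.ofReal_sum_of_nonneg fun e _ => h0 _).symm
  rw [h1]
  refine ENNReal.div_le_of_le_mul ?_
  have h2 : hh h x * 6 = ENNReal.ofReal (6 * h x) := by
    unfold hh
    rw [ENNReal.ofReal_mul (by norm_num), mul_comm]
    norm_num
  rw [h2]
  exact ENNReal.ofReal_le_ofReal (hs x)

theorem WW_children (h0 : ∀ x, 0 ≤ h x)
    (hs : ∀ x, ∑ e : Fin 3 × Bool, h (x + dir e) ≤ 6 * h x) (x : V) (k : ℕ) : ∀ s : St,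
    KK A0 s → Ex (children x k s) (WW h A0) ≤ WW h A0 s + hh h x * k := by
  induction k with
  | zero =>
    intro s _
    rw [children, Ex_pure]
    simp
  | succ k ih =>
    intro s hK
    rw [children, Ex_bind]
    have h1 : Ex (PMF.uniformOfFintype (Fin 3 × Bool)) (fun e =>
        Ex (children x k (put s (x + dir e))) (WW h A0)) ≤
        Ex (PMF.uniformOfFintype (Fin 3 × Bool)) (fun e =>
          hh h (x + dir e) + (WW h A0 s + hh h x * k)) := by
      refine Ex_mono _ fun e _ => ?_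
      refine (ih _ (KK_put hK _)).trans (le_of_eq ?_)
      rw [WW_put hK]
      ring
    refine h1.trans ?_
    rw [Ex_add, Ex_const]
    calc _ ≤ hh h x + (WW h A0 s + hh h x * k) := add_le_add_left (avg h0 hs x) _
      _ = _ := by push_cast; ring

theorem erase_WW (s : St) (i : ℕ) (hi : i < s.L.length) :
    WW h A0 ⟨s.A, s.L.eraseIdx i, s.m⟩ + hh h (s.L.getD i 0) = WW h A0 s := by
  unfold WW
  have h1 := ((List.getElem_cons_eraseIdx_perm hi).map (hh h)).sum_eq
  rw [List.map_cons, List.sum_cons] at h1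
  rw [List.getD_eq_getElem _ _ hi]
  simp only
  rw [← h1]
  ring

theorem WW_step {ν : PMF ℕ} {σ2 M : ℝ} (hν : Off ν σ2 M) (h0 : ∀ x, 0 ≤ h x)
    (hs : ∀ x, ∑ e : Fin 3 × Bool, h (x + dir e) ≤ 6 * h x) (s : St) (hK : KK A0 s) :
    Ex (step ν s) (WW h A0) ≤ WW h A0 s := by
  by_cases hL : s.L = []
  · unfold step
    rw [dif_pos hL, Ex_pure, if_pos hK.2]
  · unfold step
    rw [dif_neg hL, Ex_bind]
    have h1 : Ex (PMF.uniformOfFinset (range s.L.length)
        ⟨0, Finset.mem_range.2 (List.length_pos_iff.2 hL)⟩) (fun i =>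
        Ex (ν.bind fun k => children (s.L.getD i 0) k ⟨s.A, s.L.eraseIdx i, s.m⟩) (WW h A0)) ≤
        Ex (PMF.uniformOfFinset (range s.L.length)
        ⟨0, Finset.mem_range.2 (List.length_pos_iff.2 hL)⟩) (fun _ => WW h A0 s) := by
      refine Ex_mono _ fun i hi => ?_
      have hi' : i ∈ range s.L.length := by
        by_contra hni
        exact hi (PMF.uniformOfFinset_apply_of_notMem _ hni)
      rw [Ex_bind]
      have h2 : Ex ν (fun k => Ex (children (s.L.getD i 0) k ⟨s.A, s.L.eraseIdx i, s.m⟩)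
          (WW h A0)) ≤ Ex ν (fun k => WW h A0 ⟨s.A, s.L.eraseIdx i, s.m⟩ +
            hh h (s.L.getD i 0) * (k : ℝ≥0∞)) :=
        Ex_mono _ fun k _ => WW_children h0 hs _ k _ hK
      refine h2.trans (le_of_eq ?_)
      rw [Ex_add, Ex_const, Ex_const_mul, Pool.Agent.K1H10.BI.Ex_mean hν, mul_one]
      exact erase_WW s i (Finset.mem_range.1 hi')
    refine h1.trans (le_of_eq ?_)
    rw [Ex_const]

theorem KK_step (ν : PMF ℕ) {s s' : St} (hK : KK A0 s) (h' : step ν s s' ≠ 0) : KK A0 s' := by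
  have h1 : s' ∈ (step ν s).support := (PMF.mem_support_iff _ _).2 h'
  by_cases hL : s.L = []
  · unfold step at h1
    rw [dif_pos hL, if_pos hK.2] at h1
    rw [(PMF.mem_support_pure_iff _ _).1 h1]
    exact hK
  · unfold step at h1
    rw [dif_neg hL] at h1
    obtain ⟨i, _, hi⟩ := (PMF.mem_support_bind_iff _ _ _).1 h1
    obtain ⟨k, _, hk⟩ := (PMF.mem_support_bind_iff _ _ _).1 hi
    refine KK_children _ _ ⟨s.A, s.L.eraseIdx i, s.m⟩ _ ?_ ((PMF.mem_support_iff _ _).1 hk)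
    exact hK

theorem KK_run (ν : PMF ℕ) {s : St} (hK : KK A0 s) (n : ℕ) : ∀ s', run (step ν) s n s' ≠ 0 →
    KK A0 s' := by
  induction n with
  | zero =>
    intro s' h'
    have h1 : s' ∈ (run (step ν) s 0).support := (PMF.mem_support_iff _ _).2 h'
    unfold run at h1
    rw [(PMF.mem_support_pure_iff _ _).1 h1]
    exact hK
  | succ n ih =>
    intro s' h'
    have h1 : s' ∈ (run (step ν) s (n + 1)).support := (PMF.mem_support_iff _ _).2 h'
    unfold run at h1
    obtain ⟨t, ht, ht'⟩ := (PMF.mem_support_bind_iff _ _ _).1 h1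
    exact KK_step ν (ih t ((PMF.mem_support_iff _ _).1 ht)) ((PMF.mem_support_iff _ _).1 ht')

theorem WW_run {ν : PMF ℕ} {σ2 M : ℝ} (hν : Off ν σ2 M) (h0 : ∀ x, 0 ≤ h x)
    (hs : ∀ x, ∑ e : Fin 3 × Bool, h (x + dir e) ≤ 6 * h x) (s : St) (hK : KK A0 s) (n : ℕ) :
    Ex (run (step ν) s n) (WW h A0) ≤ WW h A0 s := by
  induction n with
  | zero =>
    unfold run
    rw [Ex_pure]
  | succ n ih =>
    unfold run
    rw [Ex_bind]
    exact (Ex_mono _ fun t ht => WW_step hν h0 hs t (KK_run ν hK n t ht)).trans ih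

theorem list_le (L : List V) (hL : ∀ x ∈ L, h x ≤ 3 / 4) :
    (L.map (hh h)).sum ≤ ENNReal.ofReal (3 / 4) * L.length := by
  induction L with
  | nil => simp
  | cons a L ih =>
    rw [List.map_cons, List.sum_cons, List.length_cons]
    have h1 : hh h a ≤ ENNReal.ofReal (3 / 4) :=
      ENNReal.ofReal_le_ofReal (hL a List.mem_cons_self)
    have h2 := ih fun x hx => hL x (List.mem_cons_of_mem _ hx)
    calc _ ≤ ENNReal.ofReal (3 / 4) + ENNReal.ofReal (3 / 4) * L.length := add_le_add h1 h2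
      _ = _ := by push_cast; ring

theorem bound {ν : PMF ℕ} {σ2 M : ℝ} (hν : Off ν σ2 M) {s : St} {D : Finset V}
    (h0 : ∀ x, 0 ≤ h x)
    (hs : ∀ x, ∑ e : Fin 3 × Bool, h (x + dir e) ≤ 6 * h x) (hD : ∀ x ∈ D, h x = 1)
    (hL : ∀ x ∈ s.L, h x ≤ 3 / 4) (hm : s.m = 0) (hc : s.A.card + s.L.length < D.card) (n : ℕ) :
    Ex (run (step ν) s n) (ind fun s' => Fin' s' ∧ D ⊆ s'.A) ≤ ENNReal.ofReal (3 / 4) := by
  have hK : KK s.A s := ⟨Subset.refl _, hm⟩
  have h1 := WW_run (h := h) hν h0 hs s hK n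
  have h2 : WW h s.A s ≤ ENNReal.ofReal (3 / 4) * s.L.length := by
    unfold WW
    rw [sdiff_self, Finset.bot_eq_empty, sum_empty, zero_add]
    exact list_le s.L hL
  have h3 : Ex (run (step ν) s n) (fun s' => ((s.L.length + 1 : ℕ) : ℝ≥0∞) *
      ind (fun s' : St => Fin' s' ∧ D ⊆ s'.A) s') ≤ Ex (run (step ν) s n) (WW h s.A) := by
    refine Ex_mono _ fun t ht => ?_
    have hKt := KK_run ν hK n t ht
    unfold ind
    split_ifs with hP
    · rw [mul_one]
      have h4 : D \ s.A ⊆ t.A \ s.A := sdiff_subset_sdiff hP.2 (Subset.refl _)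
      have h5 : s.L.length + 1 ≤ (D \ s.A).card := by
        have := le_card_sdiff s.A D
        omega
      have h6 : ((D \ s.A).card : ℝ≥0∞) = ∑ z ∈ D \ s.A, hh h z := by
        rw [Finset.card_eq_sum_ones, Nat.cast_sum]
        refine sum_congr rfl fun z hz => ?_
        unfold hh
        rw [hD z (mem_sdiff.1 hz).1]
        simp
      calc ((s.L.length + 1 : ℕ) : ℝ≥0∞) ≤ ((D \ s.A).card : ℝ≥0∞) := by exact_mod_cast h5
        _ = ∑ z ∈ D \ s.A, hh h z := h6
        _ ≤ ∑ z ∈ t.A \ s.A, hh h z := sum_le_sum_of_subset h4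
        _ ≤ WW h s.A t := by unfold WW; exact le_self_add
    · simp
  rw [Ex_const_mul] at h3
  have h7 := (h3.trans h1).trans h2
  have hpos : ((s.L.length + 1 : ℕ) : ℝ≥0∞) ≠ 0 := by simp
  have htop : ((s.L.length + 1 : ℕ) : ℝ≥0∞) ≠ ⊤ := ENNReal.natCast_ne_top _
  have h8 : ENNReal.ofReal (3 / 4) * (s.L.length : ℝ≥0∞) ≤
      ((s.L.length + 1 : ℕ) : ℝ≥0∞) * ENNReal.ofReal (3 / 4) := by
    rw [mul_comm]
    refine mul_le_mul_left ?_ _
    exact_mod_cast Nat.le_succ _
  have h9 := h7.trans h8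
  exact (ENNReal.mul_le_mul_iff_right hpos htop).1 h9

theorem t_MARK (hI : S_INVF) : S_MARK := by
  intro ν σ2 M h s D hν h0 _ hs hD hL hm hc hT
  have h1 : Phi ν (fun A => D ⊆ A) s ≤ ENNReal.ofReal (3 / 4) :=
    iSup_le fun n => bound hν h0 hs hD hL hm hc n
  have h2 := hI.2.2.2 ν (fun A => D ⊆ A) s
  rw [hT] at h2
  have h3 : (1 : ℝ≥0∞) ≤ ENNReal.ofReal (3 / 4) + Phi ν (fun A => ¬ D ⊆ A) s := by
    rw [← h2]
    exact add_le_add_left h1 _
  have h4 : (1 : ℝ≥0∞) = ENNReal.ofReal (3 / 4) + ENNReal.ofReal (1 / 4) := by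
    rw [← ENNReal.ofReal_add (by norm_num) (by norm_num)]
    norm_num
  rw [h4] at h3
  exact (ENNReal.add_le_add_iff_left ENNReal.ofReal_ne_top).1 h3

end Pool.Agent.K1H45.BI
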